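import Mathlib
import Pool.Agent.W861.TF.Stm

set_option autoImplicit false

open scoped Pointwise

namespace Pool.Agent.W118.TF

open Pool.Agent.W861.TF

theorem abox_finite (p n σ : ℕ) (a : Fin n → ZMod p) : (Abox p a σ).Finite := by
  have h : (Set.Icc (fun _ => -(σ:ℤ)) (fun _ => (σ:ℤ)) : Set (Fin n → ℤ)).Finite :=
    Set.finite_Icc _ _
  refine Set.Finite.of_finite_image (f := fun x : Lam p a => (x : Fin n → ℤ)) ?_ ?_
  · refine h.subset ?_
    rintro _ ⟨x, hx, rfl⟩
    exact ⟨fun i => (abs_le.1 (hx i)).1, fun i => (abs_le.1 (hx i)).2⟩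
  · exact Subtype.val_injective.injOn

theorem abox_nonempty (p n σ : ℕ) (a : Fin n → ZMod p) : (Abox p a σ).Nonempty := by
  refine ⟨0, fun i => ?_⟩
  simp

theorem doubling (p n σ : ℕ) (a : Fin n → ZMod p) :
    (Abox p a σ + Abox p a σ).ncard ≤ 5 ^ n * (Abox p a σ).ncard := by
  classical
  have hf := abox_finite p n σ a
  obtain ⟨A, hA⟩ : ∃ A : Finset (Lam p a), (A : Set (Lam p a)) = Abox p a σ :=
    ⟨hf.toFinset, by simp⟩
  rw [← hA, ← Finset.coe_add, Set.ncard_coe_finset, Set.ncard_coe_finset]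
  have hmem : ∀ x, x ∈ A ↔ ∀ i, |(x : Fin n → ℤ) i| ≤ (σ : ℤ) := by
    intro x
    rw [← Finset.mem_coe, hA]; rfl
  have key := Finset.card_le_mul_card_image_of_maps_to (s := A + A)
    (t := Fintype.piFinset (fun _ : Fin n => Finset.Icc (0:ℤ) 4))
    (f := fun z : Lam p a => fun i => ((z : Fin n → ℤ) i + 2 * σ) / (σ + 1)) ?_ A.card ?_
  · rw [Fintype.card_piFinset_const] at key
    simpa [mul_comm] using key
  · intro z hz
    rw [Finset.mem_add] at hz
    obtain ⟨x, hx, y, hy, rfl⟩ := hz
    rw [hmem] at hx hy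
    rw [Fintype.mem_piFinset]
    intro i
    have h1 := abs_le.1 (hx i)
    have h2 := abs_le.1 (hy i)
    have hpos : (0:ℤ) < σ + 1 := by positivity
    rw [Finset.mem_Icc]
    simp only [AddSubgroup.coe_add, Pi.add_apply]
    constructor
    · apply Int.ediv_nonneg _ hpos.le
      linarith [h1.1, h2.1]
    · apply Int.lt_add_one_iff.1
      apply Int.ediv_lt_of_lt_mul hpos
      linarith [h1.2, h2.2, hpos]
  · intro b _
    rcases (Finset.filter (fun z : Lam p a => (fun i => ((z : Fin n → ℤ) i + 2 * σ) / (σ + 1)) = b)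
      (A + A)).eq_empty_or_nonempty with h | ⟨z0, hz0⟩
    · rw [h]; simp
    · rw [Finset.mem_filter] at hz0
      refine Finset.card_le_card_of_injOn (fun z => z - z0) ?_ ?_
      · intro z hz
        rw [Finset.mem_coe, Finset.mem_filter] at hz
        rw [Finset.mem_coe, hmem]
        intro i
        have h1 := congrFun (hz.2.trans hz0.2.symm) i
        have hpos : (0:ℤ) < σ + 1 := by positivity
        have e1 := Int.emod_add_mul_ediv ((z : Fin n → ℤ) i + 2 * σ) (σ + 1)
        have e2 := Int.emod_add_mul_ediv ((z0 : Fin n → ℤ) i + 2 * σ) (σ + 1)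
        have l1 := Int.emod_nonneg ((z : Fin n → ℤ) i + 2 * σ) hpos.ne'
        have l2 := Int.emod_nonneg ((z0 : Fin n → ℤ) i + 2 * σ) hpos.ne'
        have u1 := Int.emod_lt_of_pos ((z : Fin n → ℤ) i + 2 * σ) hpos
        have u2 := Int.emod_lt_of_pos ((z0 : Fin n → ℤ) i + 2 * σ) hpos
        rw [h1] at e1
        simp only [AddSubgroup.coe_sub, Pi.sub_apply]
        rw [abs_le]
        constructor <;> linarith
      · intro z _ z' _ h
        simpa using h

theorem size (p n σ : ℕ) [NeZero p] (a : Fin n → ZMod p) :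
    (σ + 1) ^ n ≤ p * (Abox p a σ).ncard := by
  classical
  have hf := abox_finite p n σ a
  obtain ⟨A, hA⟩ : ∃ A : Finset (Lam p a), (A : Set (Lam p a)) = Abox p a σ :=
    ⟨hf.toFinset, by simp⟩
  rw [← hA, Set.ncard_coe_finset]
  have hmem : ∀ x, x ∈ A ↔ ∀ i, |(x : Fin n → ℤ) i| ≤ (σ : ℤ) := by
    intro x
    rw [← Finset.mem_coe, hA]; rfl
  have key := Finset.card_le_mul_card_image_of_maps_to
    (s := (Finset.univ : Finset (Fin n → Fin (σ + 1))))
    (t := (Finset.univ : Finset (ZMod p)))
    (f := fun x => ∑ i, ((x i : ℕ) : ZMod p) * a i) (fun _ _ => Finset.mem_univ _) A.card ?_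
  · simpa [ZMod.card, mul_comm] using key
  · intro b _
    rcases (Finset.filter (fun x : Fin n → Fin (σ + 1) => ∑ i, ((x i : ℕ) : ZMod p) * a i = b)
      Finset.univ).eq_empty_or_nonempty with h | ⟨x0, hx0⟩
    · rw [h]; simp
    · rw [Finset.mem_filter] at hx0
      have hin : ∀ x : Fin n → Fin (σ + 1), ∑ i, ((x i : ℕ) : ZMod p) * a i = b →
          (fun i => ((x i : ℕ) : ℤ) - ((x0 i : ℕ) : ℤ)) ∈ Lam p a := by
        intro x hx
        change Orth p a _
        unfold Orth
        push_cast
        simp only [sub_mul, Finset.sum_sub_distrib]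
        rw [hx, hx0.2, sub_self]
      refine Finset.card_le_card_of_injOn (fun x => if hx : ∑ i, ((x i : ℕ) : ZMod p) * a i = b
        then ⟨_, hin x hx⟩ else 0) ?_ ?_
      · intro x hx
        rw [Finset.mem_coe, Finset.mem_filter] at hx
        rw [Finset.mem_coe, hmem]
        intro i
        simp only [hx.2, dite_true]
        have h1 := (x i).2
        have h2 := (x0 i).2
        rw [abs_le]
        constructor <;> omega
      · intro x hx y hy h
        rw [Finset.mem_coe, Finset.mem_filter] at hx hy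
        simp only [hx.2, hy.2, dite_true, Subtype.mk.injEq] at h
        funext i
        have := congrFun h i
        apply Fin.ext
        omega

/-- (DB) finiteness, doubling and size of the lattice ball. -/
theorem db : S_DB := by
  intro p n σ _ a
  exact ⟨abox_finite p n σ a, abox_nonempty p n σ a, doubling p n σ a, size p n σ a⟩

end Pool.Agent.W118.TF
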