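import Mathlib
import Pool.Agent.W861.TF.Stm

set_option autoImplicit false

namespace Pool.Agent.W118.TF

open Pool.Agent.W861.TF

theorem arith1 (h X Y M bad P : ℕ) (hh : 1 ≤ h) (hX : 2 * Y ^ 11 * M ^ 16 ≤ X) (hY : 1 ≤ Y)
    (hM : 1 ≤ M) (hP : 0 < P)
    (hb : bad * X ^ (h * (48 * h)) ≤
      (16 * h + 1) * Y ^ (2 * (16 * h) * (16 * h)) * M ^ (16 * h * (48 * h)) * P) :
    2 * bad < P := by
  have e1 : h * (48 * h) = 48 * (h * h) := by ring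
  have e2 : 2 * (16 * h) * (16 * h) = 512 * (h * h) := by ring
  have e3 : 16 * h * (48 * h) = 768 * (h * h) := by ring
  rw [e1, e2, e3] at hb
  have hhh : h ≤ h * h := by nlinarith
  generalize hE : h * h = E at hb hhh
  have h1 : 2 * (16 * h + 1) < 2 ^ (48 * E) := by
    have a1 : 48 * E - 1 < 2 ^ (48 * E - 1) := Nat.lt_two_pow_self
    have a2 : 2 ^ (48 * E) = 2 * 2 ^ (48 * E - 1) := by
      rw [← pow_succ']
      congr 1
      omega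
    rw [a2]
    omega
  have h2 : Y ^ (512 * E) ≤ Y ^ (528 * E) := Nat.pow_le_pow_right hY (by omega)
  have h3 : 2 ^ (48 * E) * Y ^ (528 * E) * M ^ (768 * E) ≤ X ^ (48 * E) := by
    calc 2 ^ (48 * E) * Y ^ (528 * E) * M ^ (768 * E) = (2 * Y ^ 11 * M ^ 16) ^ (48 * E) := by
          rw [mul_pow, mul_pow, ← pow_mul, ← pow_mul]
          congr 2
          · congr 1
            ring
          · ring
      _ ≤ X ^ (48 * E) := Nat.pow_le_pow_left hX _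
  have hYp : 0 < Y ^ (512 * E) := Nat.pow_pos hY
  have hMp : 0 < M ^ (768 * E) := Nat.pow_pos hM
  by_contra hcon
  push Not at hcon
  have h4 : X ^ (48 * E) * P ≤ 2 * (16 * h + 1) * Y ^ (512 * E) * M ^ (768 * E) * P := by
    calc X ^ (48 * E) * P ≤ X ^ (48 * E) * (2 * bad) := Nat.mul_le_mul_left _ hcon
      _ = 2 * (bad * X ^ (48 * E)) := by ring
      _ ≤ 2 * ((16 * h + 1) * Y ^ (512 * E) * M ^ (768 * E) * P) := Nat.mul_le_mul_left _ hb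
      _ = _ := by ring
  have h5 : 2 * (16 * h + 1) * Y ^ (512 * E) * M ^ (768 * E) <
      2 ^ (48 * E) * Y ^ (528 * E) * M ^ (768 * E) := by
    apply Nat.mul_lt_mul_of_pos_right _ hMp
    calc 2 * (16 * h + 1) * Y ^ (512 * E) < 2 ^ (48 * E) * Y ^ (512 * E) :=
          Nat.mul_lt_mul_of_pos_right h1 hYp
      _ ≤ _ := Nat.mul_le_mul_left _ h2
  have h6 : X ^ (48 * E) ≤ 2 * (16 * h + 1) * Y ^ (512 * E) * M ^ (768 * E) :=
    Nat.le_of_mul_le_mul_right h4 hP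
  omega

theorem arith2 (n bad P : ℕ) (hn : 3 ≤ n) (hb : bad * 4 ^ n ≤ 3 ^ n * P) :
    2 * bad ≤ P := by
  have h1 : 2 * 3 ^ n ≤ 4 ^ n := by
    obtain ⟨k, rfl⟩ := Nat.exists_eq_add_of_le hn
    rw [pow_add, pow_add]
    have : 3 ^ k ≤ 4 ^ k := Nat.pow_le_pow_left (by norm_num) _
    omega
  have h2 : 0 < 4 ^ n := by positivity
  have h3 : (2 * bad) * 4 ^ n ≤ P * 4 ^ n := by
    calc (2 * bad) * 4 ^ n = 2 * (bad * 4 ^ n) := by ring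
      _ ≤ 2 * (3 ^ n * P) := Nat.mul_le_mul_left _ hb
      _ = (2 * 3 ^ n) * P := by ring
      _ ≤ 4 ^ n * P := Nat.mul_le_mul_right _ h1
      _ = P * 4 ^ n := by ring
  exact Nat.le_of_mul_le_mul_right h3 h2

/-- (EX) existence of a good `a`. -/
theorem ex (hf : S_FM) (hs : S_SV) : S_EX := by
  classical
  intro s R T0 hR
  obtain ⟨τ, hτ0, hτ⟩ : ∃ τ, T0 ≤ τ ∧ 2 * (4 * 2 ^ s + 1) ^ 11 * (17 * R) ^ 16 ≤ 2 ^ τ := by
    refine ⟨T0 + (2 * (4 * 2 ^ s + 1) ^ 11 * (17 * R) ^ 16), Nat.le_add_right _ _, ?_⟩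
    exact (Nat.lt_two_pow_self).le.trans
      (Nat.pow_le_pow_right (by norm_num) (Nat.le_add_left _ _))
  have hh : 1 ≤ 4 ^ τ := Nat.one_le_pow _ _ (by norm_num)
  have hq1 : 4 ^ τ ≤ 8 * R * (16 * 4 ^ τ) + 4 := by nlinarith
  obtain ⟨q, hq⟩ : ∃ q, q = 8 * R * (16 * 4 ^ τ) + 4 := ⟨_, rfl⟩
  have hq4 : 4 ≤ q := by omega
  have hqq : 8 * R * (16 * 4 ^ τ) < q * q := by
    have : q ≤ q * q := Nat.le_mul_self q
    omega
  obtain ⟨p, hp, hlt, hle⟩ := Nat.exists_prime_lt_and_le_two_mul (q ^ (48 * 4 ^ τ))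
    (by positivity)
  haveI : Fact p.Prime := ⟨hp⟩
  refine ⟨τ, q, p, hτ0, by omega, hp, hlt.le, hle, ?_⟩
  have b1 := hf p τ (2 ^ s) R q Nat.one_le_two_pow hR (by omega) hlt.le hqq
  have b2 := hs p (48 * 4 ^ τ) q hq4 (by omega) hlt.le
  have hPpos : 0 < p ^ (48 * 4 ^ τ) := Nat.pow_pos hp.pos
  have c1 := arith1 (4 ^ τ) (2 ^ τ) (4 * 2 ^ s + 1) (17 * R) _ (p ^ (48 * 4 ^ τ)) hh hτ (by omega)
    (by omega) hPpos b1
  have c2 := arith2 (48 * 4 ^ τ) _ (p ^ (48 * 4 ^ τ)) (by omega) b2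
  by_contra hcon
  push Not at hcon
  have huniv : (Set.univ : Set (Fin (48 * 4 ^ τ) → ZMod p)) ⊆
      {a : Fin (48 * 4 ^ τ) → ZMod p | ∃ V : Fin (16 * 4 ^ τ) → Fin (48 * 4 ^ τ) → ℤ,
        (∀ i, Orth p a (V i)) ∧ LinearIndependent ℝ (fun i => toR (V i)) ∧
        HasCube (4 ^ τ) (2 ^ s) (4 * (R * q)) V} ∪
      {a : Fin (48 * 4 ^ τ) → ZMod p | ∃ x : Fin (48 * 4 ^ τ) → ℤ, Orth p a x ∧ x ≠ 0 ∧
        ∀ i, 4 * |x i| ≤ (q : ℤ)} := by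
    intro a _
    by_cases hsv : ∀ x : Fin (48 * 4 ^ τ) → ℤ, Orth p a x → x ≠ 0 → ∃ i, (q : ℤ) < 4 * |x i|
    · left
      obtain ⟨V, h1, h2, h3⟩ := hcon a hsv
      exact ⟨V, h1, h2, h3⟩
    · right
      push Not at hsv
      exact hsv
  have hcard : (Set.univ : Set (Fin (48 * 4 ^ τ) → ZMod p)).ncard = p ^ (48 * 4 ^ τ) := by
    rw [Set.ncard_univ, Nat.card_eq_fintype_card]
    simp [ZMod.card]
  have h1 := Set.ncard_le_ncard huniv (Set.toFinite _)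
  have h2 := Set.ncard_union_le
      {a : Fin (48 * 4 ^ τ) → ZMod p | ∃ V : Fin (16 * 4 ^ τ) → Fin (48 * 4 ^ τ) → ℤ,
        (∀ i, Orth p a (V i)) ∧ LinearIndependent ℝ (fun i => toR (V i)) ∧
        HasCube (4 ^ τ) (2 ^ s) (4 * (R * q)) V}
      {a : Fin (48 * 4 ^ τ) → ZMod p | ∃ x : Fin (48 * 4 ^ τ) → ℤ, Orth p a x ∧ x ≠ 0 ∧
        ∀ i, 4 * |x i| ≤ (q : ℤ)}
  rw [hcard] at h1
  omega

end Pool.Agent.W118.TF
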