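import Mathlib
import Pool.Agent.W861.TF.Stm

set_option autoImplicit false

open MeasureTheory Metric Module
open scoped ENNReal

namespace Pool.Agent.W118.TF

open Pool.Agent.W861.TF

theorem card_separated {E : Type*} [NormedAddCommGroup E] [NormedSpace ℝ E]
    [FiniteDimensional ℝ E] (s : Finset E) (r ρ : ℝ) (rpos : 0 < r) (ρpos : 0 < ρ)
    (hs : ∀ c ∈ s, ‖c‖ + r ≤ ρ)
    (h : ∀ c ∈ s, ∀ d ∈ s, c ≠ d → 2 * r ≤ ‖c - d‖) :
    (s.card : ℝ) * r ^ finrank ℝ E ≤ ρ ^ finrank ℝ E := by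
  borelize E
  let μ : Measure E := Measure.addHaar
  set A := ⋃ c ∈ s, ball (c : E) r with hA
  have D : Set.Pairwise (s : Set E) (Function.onFun Disjoint fun c => ball (c : E) r) := by
    rintro c hc d hd hcd
    apply ball_disjoint_ball
    rw [dist_eq_norm]
    have := h c hc d hd hcd
    linarith
  have A_subset : A ⊆ ball (0 : E) ρ := by
    refine Set.iUnion₂_subset fun x hx => ?_
    apply ball_subset_ball'
    rw [dist_zero_right]
    have := hs x hx
    linarith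
  have I :
    (s.card : ℝ≥0∞) * ENNReal.ofReal (r ^ finrank ℝ E) * μ (ball 0 1) ≤
      ENNReal.ofReal (ρ ^ finrank ℝ E) * μ (ball 0 1) :=
    calc
      (s.card : ℝ≥0∞) * ENNReal.ofReal (r ^ finrank ℝ E) * μ (ball 0 1) = μ A := by
        rw [hA, measure_biUnion_finset D fun c _ => measurableSet_ball]
        simp only [μ.addHaar_ball_of_pos _ rpos]
        simp only [Finset.sum_const, nsmul_eq_mul, mul_assoc]
      _ ≤ μ (ball (0 : E) ρ) := measure_mono A_subset
      _ = ENNReal.ofReal (ρ ^ finrank ℝ E) * μ (ball 0 1) := by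
        simp only [μ.addHaar_ball_of_pos _ ρpos]
  have J : (s.card : ℝ≥0∞) * ENNReal.ofReal (r ^ finrank ℝ E) ≤ ENNReal.ofReal (ρ ^ finrank ℝ E) :=
    (ENNReal.mul_le_mul_iff_left (measure_ball_pos _ _ zero_lt_one).ne' measure_ball_lt_top.ne).1 I
  have := ENNReal.toReal_le_of_le_ofReal (pow_nonneg ρpos.le _) J
  simpa [ENNReal.toReal_mul, ENNReal.toReal_ofReal (pow_nonneg rpos.le _)] using this

/-- (PACK) volume packing in a section. -/
theorem pack : S_PACK := by
  classical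
  intro n R q W T hq hT hW hsep
  rcases T.eq_empty_or_nonempty with rfl | ⟨x0, hx0⟩
  · simp
  have hqr : (0:ℝ) < q := by exact_mod_cast hq
  let f : (Fin n → ℤ) → W := fun x => if hx : toR (x - x0) ∈ W then ⟨toR (x - x0), hx⟩ else 0
  have hf : ∀ x ∈ T, (f x : Fin n → ℝ) = toR (x - x0) := by
    intro x hx
    simp only [f, hW x hx x0 hx0, dite_true]
  have hfi : ∀ x ∈ T, ∀ i, (f x : Fin n → ℝ) i = (x i : ℝ) - (x0 i : ℝ) := by
    intro x hx i
    rw [hf x hx]
    simp [toR]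
  have hinj : Set.InjOn f (T : Set (Fin n → ℤ)) := by
    intro x hx y hy hxy
    funext i
    have h1 := hfi x hx i
    have h2 := hfi y hy i
    rw [hxy] at h1
    have : (x i : ℝ) = (y i : ℝ) := by linarith
    exact_mod_cast this
  have hnorm : ∀ x ∈ T, ∀ y ∈ T, x ≠ y → 2 * ((q:ℝ) / 8) ≤ ‖f x - f y‖ := by
    intro x hx y hy hxy
    obtain ⟨i, hi⟩ := hsep x hx y hy hxy
    have h1 : ‖((f x - f y : W) : Fin n → ℝ) i‖ ≤ ‖f x - f y‖ := norm_le_pi_norm _ i
    refine le_trans ?_ h1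
    have h2 : ((f x - f y : W) : Fin n → ℝ) i = (x i : ℝ) - (y i : ℝ) := by
      rw [Submodule.coe_sub, Pi.sub_apply, hfi x hx, hfi y hy]; ring
    rw [h2, Real.norm_eq_abs]
    have h3 : ((q : ℤ) : ℝ) < ((4 * |x i - y i| : ℤ) : ℝ) := by exact_mod_cast hi
    push_cast at h3
    linarith
  have key := card_separated (T.image f) ((q:ℝ) / 8) ((16 * R + 1) * ((q:ℝ) / 8)) (by positivity)
    (by positivity) ?_ ?_
  · rw [Finset.card_image_of_injOn hinj, mul_pow] at key
    have h1 : (0:ℝ) < ((q:ℝ) / 8) ^ finrank ℝ W := by positivity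
    have h2 := le_of_mul_le_mul_right key h1
    exact_mod_cast h2
  · intro c hc
    obtain ⟨x, hx, rfl⟩ := Finset.mem_image.1 hc
    have : ‖f x‖ ≤ 2 * R * q := by
      change ‖((f x : W) : Fin n → ℝ)‖ ≤ _
      rw [pi_norm_le_iff_of_nonneg (by positivity)]
      intro i
      rw [hfi x hx, Real.norm_eq_abs]
      have h1 : ((|x i| : ℤ) : ℝ) ≤ (((R : ℤ) * q : ℤ) : ℝ) := by exact_mod_cast hT x hx i
      have h2 : ((|x0 i| : ℤ) : ℝ) ≤ (((R : ℤ) * q : ℤ) : ℝ) := by exact_mod_cast hT x0 hx0 i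
      push_cast at h1 h2
      have h3 := abs_sub (x i : ℝ) (x0 i : ℝ)
      linarith
    linarith
  · intro c hc d hd hcd
    obtain ⟨x, hx, rfl⟩ := Finset.mem_image.1 hc
    obtain ⟨y, hy, rfl⟩ := Finset.mem_image.1 hd
    exact hnorm x hx y hy (fun h => hcd (by rw [h]))

end Pool.Agent.W118.TF
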